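import Pool.Agent.Q41.LSS.Lower

/-!
# The primality threshold of the ideal of the complete graph
-/

set_option autoImplicit false
set_option linter.unusedSectionVars false

namespace Q41.LSS

open MvPolynomial Q37.Dim Q37.Hyp

/-- primality -/
def Pm (K : Type) [Field K] (n d : ℕ) : Prop := (Ideal.span (Set.range (fP K n d))).IsPrime

variable {K : Type} [Field K]

/-- the edges -/
def eP (n : ℕ) : Pn n → Finset (Fin n) := fun x => {x.1.1, x.1.2}

lemma ef_eP (n d : ℕ) : (fun x => ef K d (eP n x)) = fP K n d := by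
  funext x
  rw [ef, fP]
  refine Finset.sum_congr rfl fun l _ => ?_
  rw [Q37.Hyp.em, eP, Finset.prod_pair x.2.ne]

lemma cl_eP (n : ℕ) : Cl (eP n) := by
  constructor
  · intro x
    exact ⟨x.1.1, by simp [eP]⟩
  · rintro ⟨⟨a, b⟩, h⟩ ⟨⟨a', b'⟩, h'⟩ hs
    have h1 : a ∈ ({a', b'} : Finset (Fin n)) := hs (by simp [eP])
    have h2 : b ∈ ({a', b'} : Finset (Fin n)) := hs (by simp [eP])
    rw [Finset.mem_insert, Finset.mem_singleton] at h1 h2
    change a < b at h
    change a' < b' at h'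
    rcases h1 with rfl | rfl <;> rcases h2 with rfl | rfl
    · exact absurd h (lt_irrefl _)
    · rfl
    · exact absurd (h.trans h') (lt_irrefl _)
    · exact absurd h (lt_irrefl _)

lemma pm_iff (n d : ℕ) : Pm K n d ↔ Pr K d (eP n) := by
  rw [Pr, ef_eP, Pm]

lemma pm_succ {n d : ℕ} (hd : 0 < d) (h : Pm K n d) : Pm K n (d + 1) :=
  (pm_iff _ _).2 (pr_of_pr hd (cl_eP n) ((pm_iff _ _).1 h))

lemma pm_mono {n d d' : ℕ} (hd : 0 < d) (hdd : d ≤ d') (h : Pm K n d) : Pm K n d' := by
  induction d', hdd using Nat.le_induction with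
  | base => exact h
  | succ k hk ih => exact pm_succ (hd.trans_le hk) ih

theorem not_pm (r s b d : ℕ) (hd : 0 < d) (h2 : 2 * r ≤ d) (hrs : 1 ≤ r + s)
    (hgap : (r + s + b) * d + (tri r + r + b * r + tri b) ≤
      r * d + s * r + b * d + tri (r + s + b)) : ¬ Pm K (r + s + b) d := by
  intro hp
  set n := r + s + b with hn
  have hdm := dm_of_pr hd (cl_eP n) ((pm_iff n d).1 hp)
  rw [Dm, ef_eP] at hdm
  have hp' : (Ideal.span (Set.range (fP K n d))).IsPrime := hp
  have h3 := hdm _ hp' fun x => Ideal.subset_span ⟨x, rfl⟩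
  rw [card_Pn, Fintype.card_prod, Fintype.card_fin, Fintype.card_fin] at h3
  obtain ⟨P, hP, h4, ⟨a, ha⟩, h5⟩ := exists_prime K (b := b) h2 hrs
  have h6 : Ideal.span (Set.range (fP K n d)) ≤ P := by
    rw [Ideal.span_le]
    rintro _ ⟨x, rfl⟩
    exact h4 x
  have h7 : Ideal.span (Set.range (fP K n d)) ≠ P := by
    intro heq
    let v : Fin n × Fin d → K := fun x => if x = (a, ⟨0, hd⟩) then 1 else 0
    have h8 : Ideal.span (Set.range (fP K n d)) ≤ RingHom.ker (eval v) := by
      rw [Ideal.span_le]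
      rintro _ ⟨x, rfl⟩
      change eval v (fP K n d x) = 0
      rw [fP, map_sum]
      refine Finset.sum_eq_zero fun l _ => ?_
      rw [map_mul, eval_X, eval_X]
      by_cases h9 : x.1.1 = a
      · have : v (x.1.2, l) = 0 := if_neg fun h' => by
          have h10 := congrArg Prod.fst h'
          exact x.2.ne (h9.trans h10.symm)
        rw [this, mul_zero]
      · have : v (x.1.1, l) = 0 := if_neg fun h' => h9 (congrArg Prod.fst h')
        rw [this, zero_mul]
    have h9 : eval v (∑ l, X (a, l) * X (a, l)) = 0 := h8 (heq ▸ ha)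
    rw [map_sum, Finset.sum_eq_single (⟨0, hd⟩ : Fin d)] at h9
    · rw [map_mul, eval_X, show v (a, ⟨0, hd⟩) = 1 from if_pos rfl, mul_one] at h9
      exact one_ne_zero h9
    · intro l _ hl
      rw [map_mul, eval_X, show v (a, l) = 0 from if_neg fun h' => hl (congrArg Prod.snd h'),
        mul_zero]
    · intro h'; exact absurd (Finset.mem_univ _) h'
  have h8 := dm_lt_of_lt (lt_of_le_of_ne h6 h7)
  omega

/-- the arithmetic of the strata -/
lemma crit_of {n m u : ℕ} (h1 : n ≤ m + 2 * u + 1)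
    (h2 : ((u : ℤ) - 1) * (u - 2) ≤ 2 * m) : Crit n (n + m) := by
  intro r s b hN hr
  have t1 := tri_two r
  have t2 := tri_two b
  have t3 := tri_two (r + s + b)
  have key : 1 ≤ s → s * r + s + tri (r + s + b) + 1 ≤
      s * (n + m) + tri r + r + b * r + tri b := by
    intro hs
    have hru : r ≤ m + u := by omega
    -- over the integers
    zify at t1 t2 t3 hN hs hru ⊢
    have hsb : (s : ℤ) * (r + s + b + 1) ≤ s * n := by
      have : (r : ℤ) + s + b + 1 ≤ n := by linarith
      exact mul_le_mul_of_nonneg_left this (by linarith)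
    have hkey : (2 : ℤ) ≤ 2 * s * m + s * s + s - 2 * s * r + 2 * r := by
      by_cases hv : (r : ℤ) ≤ m
      · nlinarith [mul_nonneg (show (0 : ℤ) ≤ s by linarith) (show (0 : ℤ) ≤ m - r by linarith),
          show (0 : ℤ) ≤ r by positivity]
      · push Not at hv
        obtain ⟨v, hv'⟩ : ∃ v : ℤ, (r : ℤ) = m + v := ⟨r - m, by ring⟩
        have hv1 : 1 ≤ v := by linarith
        have hvu : v ≤ u := by linarith
        have h3 : (v - 1) * (v - 2) ≤ ((u : ℤ) - 1) * (u - 2) := by
          rcases eq_or_lt_of_le hvu with h | h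
          · rw [h]
          · have : 0 ≤ ((u : ℤ) - v) * (u + v - 3) :=
              mul_nonneg (by linarith) (by linarith)
            nlinarith
        have h4 : 0 ≤ ((s : ℤ) - v) * (s - v + 1) := by
          rcases le_or_gt v (s : ℤ) with h | h
          · exact mul_nonneg (by linarith) (by linarith)
          · exact mul_nonneg_of_nonpos_of_nonpos (by linarith) (by linarith)
        rw [hv']
        nlinarith
    nlinarith
  refine ⟨key, ?_⟩
  rcases Nat.eq_zero_or_pos s with hs | hs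
  · subst hs
    zify at t1 t2 t3 ⊢
    nlinarith
  · have := key hs
    omega

theorem pm_of {n m u : ℕ} (h1 : n ≤ m + 2 * u + 1)
    (h2 : ((u : ℤ) - 1) * (u - 2) ≤ 2 * m) : Pm K n (n + m) :=
  prime_of_crit (n + m) n (Nat.le_add_right n m) (crit_of h1 h2)

/-- `T_u + 2 ≤ n ≤ T_{u+1}` -/
theorem case_one {n u : ℕ} (h1 : u * (u + 1) / 2 + 2 ≤ n) (h2 : n ≤ (u + 1) * (u + 2) / 2)
    (d : ℕ) (hd : 1 ≤ d) : Pm K n d ↔ 2 * n - 2 * u - 1 ≤ d := by
  have e1 : 2 * (u * (u + 1) / 2) = u * (u + 1) :=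
    Nat.mul_div_cancel' (Nat.even_mul_succ_self u).two_dvd
  have e2 : 2 * ((u + 1) * (u + 2) / 2) = (u + 1) * (u + 2) :=
    Nat.mul_div_cancel' (Nat.even_mul_succ_self (u + 1)).two_dvd
  set T := u * (u + 1) / 2
  set T' := (u + 1) * (u + 2) / 2
  have hTu : u ≤ T := by nlinarith [Nat.zero_le (u * (u - 1)), Nat.mul_self_le_mul_self_iff.2 (le_refl u), Nat.le_mul_self u]
  have h2u : 2 * u ≤ T + 1 := by
    zify at e1 ⊢
    have : 0 ≤ ((u : ℤ) - 1) * (u - 2) := by
      rcases Nat.lt_or_ge u 2 with h | h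
      · interval_cases u <;> norm_num
      · have : (2 : ℤ) ≤ u := by exact_mod_cast h
        exact mul_nonneg (by linarith) (by linarith)
    nlinarith
  constructor
  · intro hp
    by_contra hcon
    push Not at hcon
    -- `d' = 2 n - 2 u - 2`
    have h3 : Pm K n (2 * (n - u - 1)) := pm_mono hd (by omega) hp
    obtain ⟨r, rfl⟩ : ∃ r, n = r + (u + 1) + 0 := ⟨n - u - 1, by omega⟩
    have e3 : r + (u + 1) + 0 - u - 1 = r := by omega
    rw [e3] at h3
    refine not_pm r (u + 1) 0 (2 * r) (by omega) le_rfl (by omega) ?_ h3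
    have t1 := tri_two r
    have t3 := tri_two (r + (u + 1) + 0)
    have t0 : tri 0 = 0 := rfl
    rw [t0]
    zify at t1 t3 e1 e2 h2 h1 ⊢
    nlinarith
  · intro h3
    refine pm_mono (d := 2 * n - 2 * u - 1) (by omega) h3 ?_
    obtain ⟨m, hm⟩ : ∃ m, n = m + 2 * u + 1 := ⟨n - 2 * u - 1, by omega⟩
    have e3 : 2 * n - 2 * u - 1 = n + m := by omega
    rw [e3]
    refine pm_of (u := u) (by omega) ?_
    zify at e1 h1 hm ⊢
    nlinarith

/-- `n = T_u + 1` -/
theorem case_two {n u : ℕ} (hu : 1 ≤ u) (h1 : n = u * (u + 1) / 2 + 1) (d : ℕ) (hd : 1 ≤ d) :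
    Pm K n d ↔ 2 * n - 2 * u ≤ d := by
  have e1 : 2 * (u * (u + 1) / 2) = u * (u + 1) :=
    Nat.mul_div_cancel' (Nat.even_mul_succ_self u).two_dvd
  set T := u * (u + 1) / 2
  have hTu : u ≤ T := by nlinarith
  have h2u : 2 * u ≤ T + 1 := by
    zify at e1 ⊢
    have : 0 ≤ ((u : ℤ) - 1) * (u - 2) := by
      rcases Nat.lt_or_ge u 2 with h | h
      · interval_cases u <;> norm_num
      · have : (2 : ℤ) ≤ u := by exact_mod_cast h
        exact mul_nonneg (by linarith) (by linarith)
    nlinarith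
  constructor
  · intro hp
    by_contra hcon
    push Not at hcon
    have h3 : Pm K n (2 * (n - u - 1) + 1) := pm_mono hd (by omega) hp
    obtain ⟨r, hr⟩ : ∃ r, n = r + u + 1 := ⟨n - u - 1, by omega⟩
    subst hr
    have e3 : r + u + 1 - u - 1 = r := by omega
    rw [e3] at h3
    refine not_pm r u 1 (2 * r + 1) (by omega) (by omega) (by omega) ?_ h3
    have t1 := tri_two r
    have t3 := tri_two (r + u + 1)
    have t0 : tri 1 = 0 := rfl
    rw [t0]
    zify at t1 t3 e1 h1 ⊢
    nlinarith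
  · intro h3
    refine pm_mono (d := 2 * n - 2 * u) (by omega) h3 ?_
    obtain ⟨m, hm⟩ : ∃ m, n = m + 2 * u := ⟨n - 2 * u, by omega⟩
    have e3 : 2 * n - 2 * u = n + m := by omega
    rw [e3]
    refine pm_of (u := u) (by omega) ?_
    zify at e1 h1 hm ⊢
    nlinarith

theorem case_zero (d : ℕ) : Pm K 1 d := by
  have : IsEmpty (Pn 1) := ⟨fun x => by
    have := x.2
    rw [Subsingleton.elim x.1.1 x.1.2] at this
    exact lt_irrefl _ this⟩
  rw [Pm, Set.range_eq_empty, Ideal.span_empty]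
  exact Ideal.isPrime_bot

end Q41.LSS
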