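import Pool.Agent.Q41.LSS.Ortho

/-!
# Totally isotropic families, and the bound for families of pairwise orthogonal vectors
-/

set_option autoImplicit false
set_option linter.unusedSectionVars false

namespace Q41.LSS

open Matrix

section

variable {K κ : Type} [Field K] [Field κ] [Algebra K κ] {η ι : Type} [Fintype η] [Fintype ι]

theorem rk_iso (Z : η → ι → κ) (hli : LinearIndependent κ Z)
    (hZ : ∀ h h', ∑ j, Z h j * Z h' j = 0) :
    2 * Fintype.card η ≤ Fintype.card ι ∧
    rk K (ent Z) + ((tri (Fintype.card η) + Fintype.card η : ℕ) : ℕ∞) ≤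
      ((Fintype.card η * Fintype.card ι : ℕ) : ℕ∞) := by
  classical
  obtain ⟨c, hc⟩ := exists_minor Z hli
  set Zc : Matrix η η κ := Matrix.of fun i j => Z i (c j) with hZc
  let Zm : Matrix η ι κ := Matrix.of Z
  let T : Matrix η ι κ := Zc⁻¹ * Zm
  have hunit : IsUnit Zc.det := isUnit_iff_ne_zero.2 hc
  have hcinj := inj_of_det hc
  have hcard := card_compl_range hcinj
  have hTc : ∀ i j, T i (c j) = (1 : Matrix η η κ) i j := by
    intro i j
    rw [← Matrix.nonsing_inv_mul Zc hunit]
    rfl
  have hZT : Zc * T = Zm := by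
    rw [← Matrix.mul_assoc, Matrix.mul_nonsing_inv Zc hunit, Matrix.one_mul]
  have hZZ : Zm * Zmᵀ = 0 := by
    ext i j
    exact hZ i j
  have hTT : T * Tᵀ = 0 := by
    simp only [T]
    rw [Matrix.transpose_mul, Matrix.mul_assoc, ← Matrix.mul_assoc Zm, hZZ, Matrix.zero_mul,
      Matrix.mul_zero]
  have hsplit := fun g : ι → κ => sum_split hcinj g
  let t : η → {j // j ∉ Set.range c} → κ := fun i j => T i j
  have ht : ∀ i i', ∑ j, t i j * t i' j = - (1 : Matrix η η κ) i i' := by
    intro i i'
    have h1 : ∑ j, T i j * T i' j = 0 := by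
      have := congrFun (congrFun hTT i) i'
      rwa [Matrix.mul_apply] at this
    rw [hsplit] at h1
    have h2 : ∑ k, T i (c k) * T i' (c k) = (1 : Matrix η η κ) i i' := by
      simp only [hTc, Matrix.one_apply]
      rw [Finset.sum_eq_single i]
      · by_cases h : i = i'
        · subst h; simp
        · rw [if_pos rfl, if_neg (fun h' => h h'.symm), if_neg h, mul_zero]
      · intro b _ hb
        rw [if_neg (fun h' => hb h'.symm), zero_mul]
      · intro h; exact absurd (Finset.mem_univ i) h
    rw [h2] at h1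
    exact (neg_eq_of_add_eq_zero_right h1).symm
  have htne : ∀ i i', i ≠ i' → ∑ j, t i j * t i' j = 0 := by
    intro i i' h
    rw [ht, Matrix.one_apply_ne h, neg_zero]
  have htq : ∀ i, ∑ j, t i j * t i j = -1 := by
    intro i
    rw [ht, Matrix.one_apply_eq]
  have htli : LinearIndependent κ t := by
    have h1 := li_of_orth (κ := κ) (η := Empty) (fun e => e.elim) linearIndependent_empty_type t
      (fun h => h.elim) htne (fun i => by rw [htq]; exact neg_ne_zero.2 one_ne_zero)
    exact h1.comp Sum.inr Sum.inr_injective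
  have hle : Fintype.card η ≤ Fintype.card {j // j ∉ Set.range c} := by
    have := htli.fintype_card_le_finrank
    rwa [Module.finrank_fintype_fun_eq_card] at this
  refine ⟨by omega, ?_⟩
  -- the bound
  have h1 := rk_quads (K := K) (ent fun i j => Zc i j) t htli htne htq
  have h2 : rk K (ent fun i j => Zc i j) ≤
      ((Fintype.card η * Fintype.card η : ℕ) : ℕ∞) := by
    have h3 : (ent fun i j => Zc i j) = Set.range fun x : η × η => Zc x.1 x.2 := by
      ext x
      constructor
      · rintro ⟨i, j, rfl⟩; exact ⟨(i, j), rfl⟩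
      · rintro ⟨⟨i, j⟩, rfl⟩; exact ⟨i, j, rfl⟩
    rw [h3]
    refine (rk_range_le _).trans ?_
    rw [Fintype.card_prod]
  have h3 : rk K (ent Z) ≤ rk K ((ent fun i j => Zc i j) ∪ ent t) := by
    apply rk_le_of_subset_cl
    rintro _ ⟨i, j, rfl⟩
    have h4 : Z i j = ∑ h, Zc i h * T h j := by
      have := congrFun (congrFun hZT i) j
      rw [Matrix.mul_apply] at this
      exact this.symm
    rw [h4]
    change _ ∈ Fc K _
    refine sum_mem fun h _ => mul_mem ?_ ?_
    · exact subset_cl _ (Or.inl (mem_ent (fun i j => Zc i j) i h))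
    · by_cases hj : j ∈ Set.range c
      · obtain ⟨k, rfl⟩ := hj
        rw [hTc, Matrix.one_apply]
        split_ifs
        · exact one_mem _
        · exact zero_mem _
      · exact subset_cl _ (Or.inr (mem_ent t h ⟨j, hj⟩))
  calc rk K (ent Z) + ((tri (Fintype.card η) + Fintype.card η : ℕ) : ℕ∞)
      ≤ rk K ((ent fun i j => Zc i j) ∪ ent t) +
        ((tri (Fintype.card η) + Fintype.card η : ℕ) : ℕ∞) := add_le_add h3 le_rfl
    _ ≤ rk K (ent fun i j => Zc i j) +
        ((Fintype.card η * Fintype.card {j // j ∉ Set.range c} : ℕ) : ℕ∞) := h1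
    _ ≤ ((Fintype.card η * Fintype.card η : ℕ) : ℕ∞) +
        ((Fintype.card η * Fintype.card {j // j ∉ Set.range c} : ℕ) : ℕ∞) := add_le_add h2 le_rfl
    _ = ((Fintype.card η * Fintype.card ι : ℕ) : ℕ∞) := by
        rw [← hcard]; push_cast; ring

/-- **The bound for families of pairwise orthogonal vectors.** -/
theorem key_bound {N : ℕ} (y : Fin N → ι → κ) (hy : ∀ i i', i ≠ i' → ∑ j, y i j * y i' j = 0) :
    ∃ r s b : ℕ, r + s + b = N ∧ 2 * r ≤ Fintype.card ι ∧
      (∃ (R : Fin (r + b) → Fin N) (c : Fin (r + b) → ι),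
        (Matrix.of fun i j => y (R i) (c j)).det ≠ 0) ∧
      rk K (ent y) + ((tri r + r + b * r + tri b : ℕ) : ℕ∞) ≤
        ((r * Fintype.card ι + s * r + b * Fintype.card ι : ℕ) : ℕ∞) := by
  classical
  -- isotropic vectors
  let A := {i : Fin N // ∑ j, y i j * y i j = 0}
  let B := {i : Fin N // ¬ ∑ j, y i j * y i j = 0}
  obtain ⟨η, a, ha, hspan, hli⟩ := exists_linearIndependent' κ (fun i : A => y i)
  have : Finite η := Finite.of_injective a ha
  let _ : Fintype η := Fintype.ofFinite η
  let Z : η → ι → κ := fun h => y (a h)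
  have hZli : LinearIndependent κ Z := hli
  have hZ : ∀ h h', ∑ j, Z h j * Z h' j = 0 := by
    intro h h'
    by_cases hh : (a h : Fin N) = a h'
    · change ∑ j, y (a h) j * y (a h') j = 0
      rw [hh]
      exact (a h').2
    · exact hy _ _ hh
  obtain ⟨h2r, hrk⟩ := rk_iso (K := K) Z hZli hZ
  let v : B → ι → κ := fun i => y i
  have hZv : ∀ h i, ∑ j, Z h j * v i j = 0 := by
    intro h i
    refine hy _ _ fun h' => ?_
    apply i.2
    rw [← h']
    exact (a h).2
  have hvv : ∀ i i', i ≠ i' → ∑ j, v i j * v i' j = 0 := fun i i' h =>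
    hy _ _ fun h' => h (Subtype.ext h')
  have hfull : LinearIndependent κ (Sum.elim Z v) := li_of_orth Z hZli v hZv hvv fun i => i.2
  -- other isotropic vectors
  let S := {i : A // i ∉ Set.range a}
  have hS : Fintype.card S + Fintype.card η = Fintype.card A := card_compl_range ha
  have hN : Fintype.card A + Fintype.card B = N := by
    have := Fintype.card_subtype_compl (fun i : Fin N => ∑ j, y i j * y i j = 0)
    have h2 : Fintype.card A ≤ Fintype.card (Fin N) := Fintype.card_subtype_le _
    rw [Fintype.card_fin] at this h2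
    change Fintype.card B = N - Fintype.card A at this
    omega
  have hα : ∀ i : A, ∃ α : η → κ, ∀ j, y i j = ∑ h, α h * Z h j := by
    intro i
    have h1 : y i ∈ Submodule.span κ (Set.range Z) := by
      have : Submodule.span κ (Set.range Z) = Submodule.span κ (Set.range fun i : A => y i) := hspan
      rw [this]
      exact Submodule.subset_span ⟨i, rfl⟩
    rw [Submodule.mem_span_range_iff_exists_fun] at h1
    obtain ⟨α, hα⟩ := h1
    refine ⟨α, fun j => ?_⟩
    rw [← hα]
    simp
  choose α hα using hα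
  let as : S × η → κ := fun x => α x.1 x.2
  refine ⟨Fintype.card η, Fintype.card S, Fintype.card B, by omega, h2r, ?_, ?_⟩
  · obtain ⟨c, hc⟩ := exists_minor _ hfull
    let e : Fin (Fintype.card η + Fintype.card B) ≃ η ⊕ B :=
      (Fintype.equivFinOfCardEq (by rw [Fintype.card_sum])).symm
    let g : η ⊕ B → Fin N := Sum.elim (fun h : η => ((a h : A) : Fin N)) fun x : B => (x : Fin N)
    refine ⟨fun i => g (e i), fun j => c (e j), ?_⟩
    rw [← Matrix.det_submatrix_equiv_self e] at hc
    have heq : (Matrix.of fun i j => y (g (e i)) (c (e j))) =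
        (Matrix.of fun i j => Sum.elim Z v i (c j)).submatrix e e := by
      ext i j
      simp only [Matrix.of_apply, Matrix.submatrix_apply]
      rcases e i with x | x <;> rfl
    rw [heq]
    exact hc
  · have h1 : rk K (ent Z ∪ Set.range as) ≤ rk K (ent Z) +
        ((Fintype.card S * Fintype.card η : ℕ) : ℕ∞) := by
      have := rk_union_range_le (K := K) (ent Z) as
      rwa [Fintype.card_prod] at this
    have h2 := rk_orth (K := K) (ent Z ∪ Set.range as) Z
      (fun h j => subset_cl _ (Or.inl (mem_ent Z h j))) v hfull hZv hvv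
    have h3 : rk K (ent y) ≤ rk K (ent Z ∪ Set.range as ∪ ent v) := by
      apply rk_le_of_subset_cl
      rintro _ ⟨i, j, rfl⟩
      by_cases hi : ∑ j, y i j * y i j = 0
      · by_cases hi' : (⟨i, hi⟩ : A) ∈ Set.range a
        · obtain ⟨h, hh⟩ := hi'
          have : y i = Z h := by
            change y i = y (a h)
            rw [hh]
          rw [this]
          exact subset_cl _ (Or.inl (Or.inl (mem_ent Z h j)))
        · rw [hα ⟨i, hi⟩ j]
          change _ ∈ Fc K _
          refine sum_mem fun h _ => mul_mem ?_ ?_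
          · exact subset_cl _ (Or.inl (Or.inr ⟨(⟨⟨i, hi⟩, hi'⟩, h), rfl⟩))
          · exact subset_cl _ (Or.inl (Or.inl (mem_ent Z h j)))
      · exact subset_cl _ (Or.inr (mem_ent v ⟨i, hi⟩ j))
    set r := Fintype.card η
    set s := Fintype.card S
    set b := Fintype.card B
    calc rk K (ent y) + ((tri r + r + b * r + tri b : ℕ) : ℕ∞)
        ≤ rk K (ent Z ∪ Set.range as ∪ ent v) + ((tri r + r + b * r + tri b : ℕ) : ℕ∞) :=
          add_le_add h3 le_rfl
      _ = rk K (ent Z ∪ Set.range as ∪ ent v) + ((b * r + tri b : ℕ) : ℕ∞) +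
          ((tri r + r : ℕ) : ℕ∞) := by push_cast; ring
      _ ≤ rk K (ent Z ∪ Set.range as) + ((b * Fintype.card ι : ℕ) : ℕ∞) +
          ((tri r + r : ℕ) : ℕ∞) := add_le_add h2 le_rfl
      _ ≤ (rk K (ent Z) + ((s * r : ℕ) : ℕ∞)) + ((b * Fintype.card ι : ℕ) : ℕ∞) +
          ((tri r + r : ℕ) : ℕ∞) := add_le_add (add_le_add h1 le_rfl) le_rfl
      _ = (rk K (ent Z) + ((tri r + r : ℕ) : ℕ∞)) + ((s * r : ℕ) : ℕ∞) +
          ((b * Fintype.card ι : ℕ) : ℕ∞) := by ring
      _ ≤ ((r * Fintype.card ι : ℕ) : ℕ∞) + ((s * r : ℕ) : ℕ∞) +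
          ((b * Fintype.card ι : ℕ) : ℕ∞) := add_le_add (add_le_add hrk le_rfl) le_rfl
      _ = ((r * Fintype.card ι + s * r + b * Fintype.card ι : ℕ) : ℕ∞) := by push_cast; ring

end

end Q41.LSS
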