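import Pool.Agent.Q41.LSS.Upper
import Pool.Agent.Q37.Dim.Degen

/-!
# Large families of pairwise orthogonal vectors
-/

set_option autoImplicit false
set_option linter.unusedSectionVars false

namespace Q41.LSS

open MvPolynomial Q37.Dim Q37.Hyp

/-- the parameters -/
abbrev Va (r s b d : ℕ) : Type := (Fin r × Fin d) ⊕ ((Fin s × Fin r) ⊕ (Fin b × Fin d))

section

variable {L : Type} [Field L] {r s b d : ℕ}

/-- the rows -/
noncomputable def row (L : Type) [Field L] (r s b d : ℕ) :
    Fin r ⊕ (Fin s ⊕ Fin b) → Fin d → MvPolynomial (Va r s b d) L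
  | Sum.inl i, l => X (Sum.inl (i, l))
  | Sum.inr (Sum.inl k), l => ∑ h, X (Sum.inr (Sum.inl (k, h))) * X (Sum.inl (h, l))
  | Sum.inr (Sum.inr k), l => X (Sum.inr (Sum.inr (k, l)))

/-- scalar products -/
noncomputable def dt (a a' : Fin d → MvPolynomial (Va r s b d) L) :
    MvPolynomial (Va r s b d) L := ∑ l, a l * a' l

lemma dt_comm (a a' : Fin d → MvPolynomial (Va r s b d) L) : dt a a' = dt a' a :=
  Finset.sum_congr rfl fun _ _ => mul_comm _ _

/-- the equations -/
noncomputable def eqs (L : Type) [Field L] (r s b d : ℕ) :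
    (Pn r ⊕ Fin r) ⊕ ((Fin r × Fin b) ⊕ Pn b) → MvPolynomial (Va r s b d) L
  | Sum.inl (Sum.inl x) => dt (row L r s b d (Sum.inl x.1.1)) (row L r s b d (Sum.inl x.1.2))
  | Sum.inl (Sum.inr i) => dt (row L r s b d (Sum.inl i)) (row L r s b d (Sum.inl i))
  | Sum.inr (Sum.inl x) => dt (row L r s b d (Sum.inl x.1)) (row L r s b d (Sum.inr (Sum.inr x.2)))
  | Sum.inr (Sum.inr x) => dt (row L r s b d (Sum.inr (Sum.inr x.1.1)))
      (row L r s b d (Sum.inr (Sum.inr x.1.2)))

/-- the isotropic frame -/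
noncomputable def fr (h : 2 * r ≤ d) (u : L) (i : Fin r) (l : Fin d) : L :=
  (if l = ⟨2 * i, by omega⟩ then 1 else 0) + if l = ⟨2 * i + 1, by omega⟩ then u else 0

lemma fr_dot (h : 2 * r ≤ d) (u : L) (hu : u * u = -1) (i j : Fin r) :
    ∑ l, fr h u i l * fr h u j l = 0 := by
  have h1 : ∑ l, fr h u i l * fr h u j l =
      fr h u j ⟨2 * i, by omega⟩ + u * fr h u j ⟨2 * i + 1, by omega⟩ := by
    have : ∀ l, fr h u i l * fr h u j l =
        (if l = ⟨2 * i, by omega⟩ then fr h u j l else 0) +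
        if l = ⟨2 * i + 1, by omega⟩ then u * fr h u j l else 0 := by
      intro l
      rw [fr, add_mul, ite_mul, one_mul, zero_mul, ite_mul, zero_mul]
    rw [Finset.sum_congr rfl fun l _ => this l, Finset.sum_add_distrib, Finset.sum_ite_eq',
      Finset.sum_ite_eq', if_pos (Finset.mem_univ _), if_pos (Finset.mem_univ _)]
  rw [h1]
  by_cases hij : i = j
  · subst hij
    rw [fr, fr, if_pos rfl, if_neg (by rw [Fin.mk.injEq]; omega),
      if_neg (by rw [Fin.mk.injEq]; omega), if_pos rfl, zero_add, hu]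
    ring
  · have hij' : (i : ℕ) ≠ j := fun h => hij (Fin.ext h)
    rw [fr, fr, if_neg (by rw [Fin.mk.injEq]; omega), if_neg (by rw [Fin.mk.injEq]; omega),
      if_neg (by rw [Fin.mk.injEq]; omega), if_neg (by rw [Fin.mk.injEq]; omega)]
    ring

/-- the special point -/
noncomputable def pt (s b : ℕ) (h : 2 * r ≤ d) (u : L) : Va r s b d → L :=
  Sum.elim (fun x => fr h u x.1 x.2) fun _ => 0

lemma eval_row_inl (h : 2 * r ≤ d) (u : L) (i : Fin r) (l : Fin d) :
    eval (pt s b h u) (row L r s b d (Sum.inl i) l) = fr h u i l := eval_X _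

lemma eval_row_b (h : 2 * r ≤ d) (u : L) (k : Fin b) (l : Fin d) :
    eval (pt s b h u) (row L r s b d (Sum.inr (Sum.inr k)) l) = 0 := eval_X _

lemma eval_eqs (h : 2 * r ≤ d) (u : L) (hu : u * u = -1)
    (x : (Pn r ⊕ Fin r) ⊕ ((Fin r × Fin b) ⊕ Pn b)) :
    eval (pt s b h u) (eqs L r s b d x) = 0 := by
  rcases x with (x | i) | (x | x)
  · rw [eqs, dt, map_sum, ← fr_dot h u hu x.1.1 x.1.2]
    exact Finset.sum_congr rfl fun l _ => by rw [map_mul, eval_row_inl, eval_row_inl]
  · rw [eqs, dt, map_sum, ← fr_dot h u hu i i]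
    exact Finset.sum_congr rfl fun l _ => by rw [map_mul, eval_row_inl]
  · rw [eqs, dt, map_sum]
    exact Finset.sum_eq_zero fun l _ => by rw [map_mul, eval_row_b, mul_zero]
  · rw [eqs, dt, map_sum]
    exact Finset.sum_eq_zero fun l _ => by rw [map_mul, eval_row_b, zero_mul]

/-- all scalar products vanish, isotropic rows are isotropic -/
lemma dt_mem {Q : Ideal (MvPolynomial (Va r s b d) L)} (hQ : ∀ x, eqs L r s b d x ∈ Q)
    (a a' : Fin r ⊕ (Fin s ⊕ Fin b))
    (haa : a ≠ a' ∨ ∀ k, a ≠ Sum.inr (Sum.inr k)) :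
    dt (row L r s b d a) (row L r s b d a') ∈ Q := by
  have hz : ∀ i j : Fin r, dt (row L r s b d (Sum.inl i)) (row L r s b d (Sum.inl j)) ∈ Q := by
    intro i j
    rcases lt_trichotomy i j with h | h | h
    · exact hQ (Sum.inl (Sum.inl ⟨(i, j), h⟩))
    · subst h
      exact hQ (Sum.inl (Sum.inr i))
    · rw [dt_comm]
      exact hQ (Sum.inl (Sum.inl ⟨(j, i), h⟩))
  have hlin : ∀ v : Fin d → MvPolynomial (Va r s b d) L,
      (∀ i, dt (row L r s b d (Sum.inl i)) v ∈ Q) →
      ∀ k, dt (row L r s b d (Sum.inr (Sum.inl k))) v ∈ Q := by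
    intro v hv k
    have h1 : dt (row L r s b d (Sum.inr (Sum.inl k))) v =
        ∑ h, X (Sum.inr (Sum.inl (k, h))) * dt (row L r s b d (Sum.inl h)) v := by
      simp only [dt, row, Finset.sum_mul, Finset.mul_sum]
      rw [Finset.sum_comm]
      exact Finset.sum_congr rfl fun _ _ => Finset.sum_congr rfl fun _ _ => by ring
    rw [h1]
    exact Ideal.sum_mem _ fun h _ => Ideal.mul_mem_left _ _ (hv h)
  have h1 : ∀ i k, dt (row L r s b d (Sum.inl i)) (row L r s b d (Sum.inr (Sum.inl k))) ∈ Q := by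
    intro i k
    rw [dt_comm]
    exact hlin _ (fun j => hz j i) k
  have h2 : ∀ i k, dt (row L r s b d (Sum.inl i)) (row L r s b d (Sum.inr (Sum.inr k))) ∈ Q :=
    fun i k => hQ (Sum.inr (Sum.inl (i, k)))
  rcases a with i | k | k <;> rcases a' with i' | k' | k'
  · exact hz i i'
  · exact h1 i k'
  · exact h2 i k'
  · rw [dt_comm]; exact h1 i' k
  · exact hlin _ (fun i => h1 i k') k
  · exact hlin _ (fun i => h2 i k') k
  · rw [dt_comm]; exact h2 i' k
  · rw [dt_comm]
    exact hlin _ (fun i => h2 i k) k'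
  · have hne : k ≠ k' := by
      rintro rfl
      rcases haa with h | h
      · exact h rfl
      · exact h k rfl
    rcases lt_or_gt_of_ne hne with h | h
    · exact hQ (Sum.inr (Sum.inr ⟨(k, k'), h⟩))
    · rw [dt_comm]
      exact hQ (Sum.inr (Sum.inr ⟨(k', k), h⟩))

/-- the parametrization -/
noncomputable def phi {n : ℕ} (e : Fin r ⊕ (Fin s ⊕ Fin b) ≃ Fin n) :
    MvPolynomial (Fin n × Fin d) L →ₐ[L] MvPolynomial (Va r s b d) L :=
  aeval fun x => row L r s b d (e.symm x.1) x.2

lemma phi_X {n : ℕ} (e : Fin r ⊕ (Fin s ⊕ Fin b) ≃ Fin n) (a : Fin r ⊕ (Fin s ⊕ Fin b))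
    (l : Fin d) : phi (L := L) e (X (e a, l)) = row L r s b d a l := by
  rw [phi, aeval_X, Equiv.symm_apply_apply]

/-- **A large prime over the ideal**, over a field with a square root of `-1`. -/
theorem exists_prime_L {n : ℕ} (e : Fin r ⊕ (Fin s ⊕ Fin b) ≃ Fin n) (h : 2 * r ≤ d) (u : L)
    (hu : u * u = -1) :
    ∃ P : Ideal (MvPolynomial (Fin n × Fin d) L), P.IsPrime ∧ (∀ x : Pn n, fP L n d x ∈ P) ∧
      (∀ a, (∀ k, a ≠ Sum.inr (Sum.inr k)) →
        (∑ l, X (e a, l) * X (e a, l) : MvPolynomial (Fin n × Fin d) L) ∈ P) ∧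
      r * d + s * r + b * d ≤ dm P + (tri r + r + b * r + tri b) := by
  classical
  have hker : (RingHom.ker (eval (pt s b h u))).IsPrime := RingHom.ker_isPrime _
  obtain ⟨Q, hQp, -, hsQ, hQM, hd⟩ := exists_prime_of_finset
    (Finset.univ.image (eqs L r s b d)) ⊥ (RingHom.ker (eval (pt s b h u))) bot_le (by
      intro x hx
      obtain ⟨y, -, rfl⟩ := Finset.mem_image.1 hx
      exact eval_eqs h u hu y)
  have hQ : ∀ x, eqs L r s b d x ∈ Q := fun x =>
    hsQ _ (Finset.mem_image_of_mem _ (Finset.mem_univ x))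
  have hcard : (Finset.univ.image (eqs L r s b d)).card ≤ tri r + r + b * r + tri b := by
    refine Finset.card_image_le.trans ?_
    rw [Finset.card_univ, Fintype.card_sum, Fintype.card_sum, Fintype.card_sum, card_Pn, card_Pn,
      Fintype.card_prod, Fintype.card_fin, Fintype.card_fin]
    have : r * b = b * r := mul_comm r b
    omega
  rw [dm_bot, Nat.card_eq_fintype_card, Fintype.card_sum, Fintype.card_sum, Fintype.card_prod,
    Fintype.card_prod, Fintype.card_prod, Fintype.card_fin, Fintype.card_fin, Fintype.card_fin,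
    Fintype.card_fin] at hd
  let φ := phi (L := L) (d := d) e
  let P : Ideal (MvPolynomial (Fin n × Fin d) L) := Q.comap φ
  have hPp : P.IsPrime := Ideal.comap_isPrime _ _
  refine ⟨P, hPp, ?_, ?_, ?_⟩
  · intro x
    rw [Ideal.mem_comap]
    have h1 : φ (fP L n d x) = dt (row L r s b d (e.symm x.1.1)) (row L r s b d (e.symm x.1.2)) := by
      rw [fP, map_sum]
      refine Finset.sum_congr rfl fun l _ => ?_
      rw [map_mul]
      simp only [φ, phi, aeval_X]
    rw [h1]
    exact dt_mem hQ _ _ (Or.inl fun h' => x.2.ne (e.symm.injective h'))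
  · intro a ha
    rw [Ideal.mem_comap]
    have h1 : φ (∑ l, X (e a, l) * X (e a, l)) = dt (row L r s b d a) (row L r s b d a) := by
      rw [map_sum]
      refine Finset.sum_congr rfl fun l _ => ?_
      rw [map_mul]
      simp only [φ, phi_X]
    rw [h1]
    exact dt_mem hQ _ _ (Or.inr ha)
  · suffices h1 : dm Q ≤ dm P by
      have : r * d + (s * r + b * d) ≤ dm P + (tri r + r + b * r + tri b) :=
        hd.trans (add_le_add h1 hcard)
      omega
    -- the minor
    let c : Fin r → Fin d := fun i => ⟨2 * i, by omega⟩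
    let Zc' : Matrix (Fin r) (Fin r) (MvPolynomial (Fin n × Fin d) L) :=
      Matrix.of fun i j => X (e (Sum.inl i), c j)
    let Zc : Matrix (Fin r) (Fin r) (MvPolynomial (Va r s b d) L) :=
      Matrix.of fun i j => row L r s b d (Sum.inl i) (c j)
    have hZc : Zc'.map φ = Zc := by
      ext1 i j
      exact phi_X e (Sum.inl i) (c j)
    have hdet : φ Zc'.det = Zc.det := by
      rw [AlgHom.map_det]
      exact congrArg Matrix.det hZc
    have hadj : ∀ i j, φ (Zc'.adjugate i j) = Zc.adjugate i j := by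
      intro i j
      have h2 := AlgHom.map_adjugate φ Zc'
      have h3 := congrFun (congrFun h2 i) j
      rw [← hZc]
      exact h3
    have hdQ : Zc.det ∉ Q := by
      intro hmem
      have h2 : eval (pt s b h u) Zc.det = 0 := hQM hmem
      rw [RingHom.map_det] at h2
      have h3 : (eval (pt s b h u)).mapMatrix Zc = 1 := by
        ext i j
        change eval (pt s b h u) (row L r s b d (Sum.inl i) (c j)) = _
        rw [eval_row_inl, fr, Matrix.one_apply]
        by_cases hij : i = j
        · subst hij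
          rw [if_pos rfl, if_neg (by rw [Fin.mk.injEq]; omega), if_pos rfl, add_zero]
        · have hij' : (i : ℕ) ≠ j := fun h => hij (Fin.ext h)
          rw [if_neg (by rw [Fin.mk.injEq]; omega), if_neg (by rw [Fin.mk.injEq]; omega),
            if_neg hij, add_zero]
      rw [h3, Matrix.det_one] at h2
      exact one_ne_zero h2
    let f : (MvPolynomial (Fin n × Fin d) L ⧸ P) →ₐ[L] (MvPolynomial (Va r s b d) L ⧸ Q) :=
      Ideal.quotientMapₐ Q φ le_rfl
    have hf : ∀ p, f (Ideal.Quotient.mk P p) = Ideal.Quotient.mk Q (φ p) := fun p => rfl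
    refine td_le_of_generators f (Ideal.quotientMap_injective (I := Q))
      (Set.range fun v => Ideal.Quotient.mk Q (X v)) ?_ ?_
    · rw [eq_top_iff]
      rintro a -
      obtain ⟨p, rfl⟩ := Ideal.Quotient.mk_surjective a
      induction p using MvPolynomial.induction_on with
      | C x => exact Subalgebra.algebraMap_mem _ x
      | add f g hf hg => rw [map_add]; exact Subalgebra.add_mem _ hf hg
      | mul_X q i hq =>
        rw [map_mul]
        exact Subalgebra.mul_mem _ hq (Algebra.subset_adjoin ⟨i, rfl⟩)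
    · rintro _ ⟨v, rfl⟩
      rcases v with ⟨i, l⟩ | ⟨k, g⟩ | ⟨k, l⟩
      · refine ⟨1, Ideal.Quotient.mk P (X (e (Sum.inl i), l)), ?_, ?_⟩
        · rw [map_one]; exact one_ne_zero
        · rw [map_one, one_mul, hf]
          exact congrArg _ (phi_X e (Sum.inl i) l).symm
      · refine ⟨Ideal.Quotient.mk P Zc'.det, Ideal.Quotient.mk P
          (∑ j, X (e (Sum.inr (Sum.inl k)), c j) * Zc'.adjugate j g), ?_, ?_⟩
        · rw [hf, hdet]
          exact fun h2 => hdQ (Ideal.Quotient.eq_zero_iff_mem.1 h2)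
        · rw [hf, hf, hdet, ← map_mul, map_sum]
          congr 1
          have h2 : ∀ j, φ (X (e (Sum.inr (Sum.inl k)), c j) * Zc'.adjugate j g) =
              (∑ h, X (Sum.inr (Sum.inl (k, h))) * Zc h j) * Zc.adjugate j g := by
            intro j
            rw [map_mul, hadj]
            congr 1
            exact phi_X e (Sum.inr (Sum.inl k)) (c j)
          rw [Finset.sum_congr rfl fun j _ => h2 j]
          have h3 : ∀ h', ∑ j, Zc h' j * Zc.adjugate j g = if h' = g then Zc.det else 0 := by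
            intro h'
            rw [← Matrix.mul_apply, Matrix.mul_adjugate, Matrix.smul_apply, Matrix.one_apply,
              smul_eq_mul]
            split_ifs <;> simp
          calc Zc.det * X (Sum.inr (Sum.inl (k, g)))
              = ∑ h', X (Sum.inr (Sum.inl (k, h'))) * ∑ j, Zc h' j * Zc.adjugate j g := by
                rw [Finset.sum_congr rfl fun h' _ => by rw [h3 h']]
                simp [mul_comm]
            _ = ∑ j, (∑ h', X (Sum.inr (Sum.inl (k, h'))) * Zc h' j) * Zc.adjugate j g := by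
                simp only [Finset.mul_sum, Finset.sum_mul]
                rw [Finset.sum_comm]
                exact Finset.sum_congr rfl fun _ _ => Finset.sum_congr rfl fun _ _ => by ring
      · refine ⟨1, Ideal.Quotient.mk P (X (e (Sum.inr (Sum.inr k)), l)), ?_, ?_⟩
        · rw [map_one]; exact one_ne_zero
        · rw [map_one, one_mul, hf]
          exact congrArg _ (phi_X e (Sum.inr (Sum.inr k)) l).symm

end

/-- over any field -/
theorem exists_prime (K : Type) [Field K] {r s b d : ℕ} (h : 2 * r ≤ d) (hrs : 1 ≤ r + s) :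
    ∃ P : Ideal (MvPolynomial (Fin (r + s + b) × Fin d) K), P.IsPrime ∧
      (∀ x, fP K (r + s + b) d x ∈ P) ∧
      (∃ a, (∑ l, X (a, l) * X (a, l) : MvPolynomial (Fin (r + s + b) × Fin d) K) ∈ P) ∧
      r * d + s * r + b * d ≤ dm P + (tri r + r + b * r + tri b) := by
  let L := AlgebraicClosure K
  obtain ⟨u, hu⟩ := IsAlgClosed.exists_pow_nat_eq (-1 : L) (n := 2) (by norm_num)
  rw [sq] at hu
  let e : Fin r ⊕ (Fin s ⊕ Fin b) ≃ Fin (r + s + b) :=
    Fintype.equivFinOfCardEq (by
      rw [Fintype.card_sum, Fintype.card_sum, Fintype.card_fin, Fintype.card_fin,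
        Fintype.card_fin, add_assoc])
  obtain ⟨P, hP, h1, h2, h3⟩ := exists_prime_L e h u hu
  refine ⟨P.comap (bc K L _), Ideal.comap_isPrime _ _, ?_, ?_, ?_⟩
  · intro x
    rw [Ideal.mem_comap]
    have h4 : bc K L _ (fP K (r + s + b) d x) = fP L (r + s + b) d x := by
      simp only [fP, map_sum, map_mul, map_X]
    rw [h4]
    exact h1 x
  · obtain ⟨a, ha⟩ : ∃ a : Fin r ⊕ (Fin s ⊕ Fin b), ∀ k, a ≠ Sum.inr (Sum.inr k) := by
      rcases Nat.eq_zero_or_pos r with hr | hr
      · exact ⟨Sum.inr (Sum.inl ⟨0, by omega⟩), fun k h => by simp at h⟩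
      · exact ⟨Sum.inl ⟨0, hr⟩, fun k h => by simp at h⟩
    refine ⟨e a, ?_⟩
    rw [Ideal.mem_comap]
    have h4 : bc K L _ (∑ l, X (e a, l) * X (e a, l)) =
        (∑ l, X (e a, l) * X (e a, l) : MvPolynomial (Fin (r + s + b) × Fin d) L) := by
      simp only [map_sum, map_mul, map_X]
    rw [h4]
    exact h2 a ha
  · exact h3.trans (add_le_add (dm_base_le P) le_rfl)

end Q41.LSS
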