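import Pool.Agent.Q41.LSS.Par

/-!
# Families of orthogonal vectors
-/

set_option autoImplicit false
set_option linter.unusedSectionVars false

namespace Q41.LSS

open Matrix

/-- the entries of a family of vectors -/
def ent {κ α ι : Type} (v : α → ι → κ) : Set κ := {x | ∃ i l, v i l = x}

lemma mem_ent {κ α ι : Type} (v : α → ι → κ) (i : α) (l : ι) : v i l ∈ ent v := ⟨i, l, rfl⟩

/-- triangular numbers -/
def tri (m : ℕ) : ℕ := ∑ i ∈ Finset.range m, i

lemma tri_succ (m : ℕ) : tri (m + 1) = tri m + m := Finset.sum_range_succ _ _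

lemma tri_two (m : ℕ) : 2 * tri m + m = m * m := by
  induction m with
  | zero => rfl
  | succ m ih => rw [tri_succ]; nlinarith

section

variable {K κ : Type} [Field K] [Field κ] [Algebra K κ] {η ι : Type} [Fintype η] [Fintype ι]

lemma ent_succ {m : ℕ} (v : Fin (m + 1) → ι → κ) :
    ent v = ent (fun i : Fin m => v i.castSucc) ∪ Set.range (v (Fin.last m)) := by
  ext x
  constructor
  · rintro ⟨i, l, rfl⟩
    refine Fin.lastCases ?_ (fun i => ?_) i
    · exact Or.inr ⟨l, rfl⟩
    · exact Or.inl ⟨i, l, rfl⟩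
  · rintro (⟨i, l, rfl⟩ | ⟨l, rfl⟩)
    · exact ⟨_, l, rfl⟩
    · exact ⟨_, l, rfl⟩

lemma li_succ {m : ℕ} {w : η → ι → κ} {v : Fin (m + 1) → ι → κ}
    (h : LinearIndependent κ (Sum.elim w v)) :
    LinearIndependent κ (Sum.elim w fun i : Fin m => v i.castSucc) := by
  have h1 : (Sum.elim w fun i : Fin m => v i.castSucc) =
      Sum.elim w v ∘ Sum.map id Fin.castSucc := by
    funext x
    rcases x with x | x <;> rfl
  rw [h1]
  exact h.comp _ (Sum.map_injective.2 ⟨Function.injective_id, Fin.castSucc_injective m⟩)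

theorem rk_orth_fin (s : Set κ) (w : η → ι → κ) (hw : ∀ h j, w h j ∈ cl K s) (m : ℕ) :
    ∀ v : Fin m → ι → κ, LinearIndependent κ (Sum.elim w v) →
      (∀ h i, ∑ j, w h j * v i j = 0) → (∀ i i', i ≠ i' → ∑ j, v i j * v i' j = 0) →
      rk K (s ∪ ent v) + ((m * Fintype.card η + tri m : ℕ) : ℕ∞) ≤
        rk K s + ((m * Fintype.card ι : ℕ) : ℕ∞) := by
  induction m with
  | zero =>
    intro v _ _ _
    have : ent v = ∅ := by
      ext x
      simp only [Set.mem_empty_iff_false, iff_false]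
      rintro ⟨i, -⟩
      exact i.elim0
    rw [this, Set.union_empty]
    simp [tri]
  | succ m ih =>
    intro v hli h1 h2
    have hIH := ih (fun i => v i.castSucc) (li_succ hli) (fun h i => h1 h _)
      (fun i i' hne => h2 _ _ fun h => hne (Fin.castSucc_injective m h))
    have hst := rk_lin (K := K) (s ∪ ent fun i : Fin m => v i.castSucc)
      (Sum.elim w fun i : Fin m => v i.castSucc) (by
        rintro (h | i) j
        · exact cl_mono Set.subset_union_left (hw h j)
        · exact subset_cl _ (Or.inr (mem_ent _ i j))) (li_succ hli) (v (Fin.last m)) (by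
        rintro (h | i)
        · exact h1 h _
        · exact h2 _ _ (Fin.castSucc_lt_last i).ne)
    rw [Fintype.card_sum, Fintype.card_fin] at hst
    rw [ent_succ, ← Set.union_assoc]
    calc rk K (s ∪ (ent fun i : Fin m => v i.castSucc) ∪ Set.range (v (Fin.last m))) +
          (((m + 1) * Fintype.card η + tri (m + 1) : ℕ) : ℕ∞)
        = rk K (s ∪ (ent fun i : Fin m => v i.castSucc) ∪ Set.range (v (Fin.last m))) +
          ((Fintype.card η + m : ℕ) : ℕ∞) + ((m * Fintype.card η + tri m : ℕ) : ℕ∞) := by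
          rw [tri_succ]; push_cast; ring
      _ ≤ rk K (s ∪ ent fun i : Fin m => v i.castSucc) + Fintype.card ι +
          ((m * Fintype.card η + tri m : ℕ) : ℕ∞) := add_le_add hst le_rfl
      _ = rk K (s ∪ ent fun i : Fin m => v i.castSucc) +
          ((m * Fintype.card η + tri m : ℕ) : ℕ∞) + Fintype.card ι := by ring
      _ ≤ rk K s + ((m * Fintype.card ι : ℕ) : ℕ∞) + Fintype.card ι := add_le_add hIH le_rfl
      _ = rk K s + (((m + 1) * Fintype.card ι : ℕ) : ℕ∞) := by push_cast; ring

theorem rk_quad_fin (s : Set κ) (m : ℕ) :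
    ∀ v : Fin m → ι → κ, LinearIndependent κ v →
      (∀ i i', i ≠ i' → ∑ j, v i j * v i' j = 0) → (∀ i, ∑ j, v i j * v i j = -1) →
      rk K (s ∪ ent v) + ((tri m + m : ℕ) : ℕ∞) ≤
        rk K s + ((m * Fintype.card ι : ℕ) : ℕ∞) := by
  induction m with
  | zero =>
    intro v _ _ _
    have : ent v = ∅ := by
      ext x
      simp only [Set.mem_empty_iff_false, iff_false]
      rintro ⟨i, -⟩
      exact i.elim0
    rw [this, Set.union_empty]
    simp [tri]
  | succ m ih =>
    intro v hli h2 h3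
    have hli' : LinearIndependent κ fun i : Fin m => v i.castSucc :=
      hli.comp _ (Fin.castSucc_injective m)
    have hIH := ih (fun i => v i.castSucc) hli'
      (fun i i' hne => h2 _ _ fun h => hne (Fin.castSucc_injective m h)) (fun i => h3 _)
    have hst := rk_quad (K := K) (s ∪ ent fun i : Fin m => v i.castSucc)
      (fun i : Fin m => v i.castSucc) (fun i j => subset_cl _ (Or.inr (mem_ent _ i j))) hli'
      (v (Fin.last m)) (fun i => h2 _ _ (Fin.castSucc_lt_last i).ne) (h3 _)
    rw [Fintype.card_fin] at hst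
    rw [ent_succ, ← Set.union_assoc]
    calc rk K (s ∪ (ent fun i : Fin m => v i.castSucc) ∪ Set.range (v (Fin.last m))) +
          ((tri (m + 1) + (m + 1) : ℕ) : ℕ∞)
        = rk K (s ∪ (ent fun i : Fin m => v i.castSucc) ∪ Set.range (v (Fin.last m))) +
          ((m : ℕ∞) + 1) + ((tri m + m : ℕ) : ℕ∞) := by
          rw [tri_succ]; push_cast; ring
      _ ≤ rk K (s ∪ ent fun i : Fin m => v i.castSucc) + Fintype.card ι +
          ((tri m + m : ℕ) : ℕ∞) := add_le_add hst le_rfl
      _ = rk K (s ∪ ent fun i : Fin m => v i.castSucc) +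
          ((tri m + m : ℕ) : ℕ∞) + Fintype.card ι := by ring
      _ ≤ rk K s + ((m * Fintype.card ι : ℕ) : ℕ∞) + Fintype.card ι := add_le_add hIH le_rfl
      _ = rk K s + (((m + 1) * Fintype.card ι : ℕ) : ℕ∞) := by push_cast; ring

variable {β : Type} [Fintype β]

lemma ent_comp {α : Type} (e : α ≃ β) (v : β → ι → κ) : ent (v ∘ e) = ent v := by
  ext x
  constructor
  · rintro ⟨i, l, rfl⟩
    exact ⟨e i, l, rfl⟩
  · rintro ⟨i, l, rfl⟩
    exact ⟨e.symm i, l, by simp⟩

theorem rk_orth (s : Set κ) (w : η → ι → κ) (hw : ∀ h j, w h j ∈ cl K s)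
    (v : β → ι → κ) (hli : LinearIndependent κ (Sum.elim w v))
    (h1 : ∀ h i, ∑ j, w h j * v i j = 0) (h2 : ∀ i i', i ≠ i' → ∑ j, v i j * v i' j = 0) :
    rk K (s ∪ ent v) + ((Fintype.card β * Fintype.card η + tri (Fintype.card β) : ℕ) : ℕ∞) ≤
        rk K s + ((Fintype.card β * Fintype.card ι : ℕ) : ℕ∞) := by
  let e := (Fintype.equivFin β).symm
  have := rk_orth_fin (K := K) s w hw (Fintype.card β) (v ∘ e) (by
    have h3 : Sum.elim w (v ∘ e) = Sum.elim w v ∘ Sum.map id e := by
      funext x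
      rcases x with x | x <;> rfl
    rw [h3]
    exact hli.comp _ (Sum.map_injective.2 ⟨Function.injective_id, e.injective⟩))
    (fun h i => h1 h _) (fun i i' hne => h2 _ _ fun h => hne (e.injective h))
  rwa [ent_comp e v] at this

theorem rk_quads (s : Set κ) (v : β → ι → κ) (hli : LinearIndependent κ v)
    (h2 : ∀ i i', i ≠ i' → ∑ j, v i j * v i' j = 0) (h3 : ∀ i, ∑ j, v i j * v i j = -1) :
    rk K (s ∪ ent v) + ((tri (Fintype.card β) + Fintype.card β : ℕ) : ℕ∞) ≤
        rk K s + ((Fintype.card β * Fintype.card ι : ℕ) : ℕ∞) := by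
  let e := (Fintype.equivFin β).symm
  have := rk_quad_fin (K := K) s (Fintype.card β) (v ∘ e) (hli.comp _ e.injective)
    (fun i i' hne => h2 _ _ fun h => hne (e.injective h)) (fun i => h3 _)
  rwa [ent_comp e v] at this

/-- orthogonal nonisotropic vectors, with vectors orthogonal to them -/
lemma li_of_orth (w : η → ι → κ) (hw : LinearIndependent κ w) (v : β → ι → κ)
    (h1 : ∀ h i, ∑ j, w h j * v i j = 0) (h2 : ∀ i i', i ≠ i' → ∑ j, v i j * v i' j = 0)
    (h3 : ∀ i, ∑ j, v i j * v i j ≠ 0) : LinearIndependent κ (Sum.elim w v) := by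
  classical
  rw [Fintype.linearIndependent_iff] at hw ⊢
  intro g hg
  rw [Fintype.sum_sum_type] at hg
  simp only [Sum.elim_inl, Sum.elim_inr] at hg
  have hv : ∀ i, g (Sum.inr i) = 0 := by
    intro i
    have h4 : ∑ j, (∑ x, g (Sum.inl x) • w x + ∑ x, g (Sum.inr x) • v x) j * v i j = 0 := by
      rw [hg]; simp
    have h5 : ∑ j, (∑ x, g (Sum.inl x) • w x + ∑ x, g (Sum.inr x) • v x) j * v i j =
        ∑ x, g (Sum.inl x) * ∑ j, w x j * v i j + ∑ x, g (Sum.inr x) * ∑ j, v x j * v i j := by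
      simp only [Pi.add_apply, Finset.sum_apply, Pi.smul_apply, smul_eq_mul, add_mul,
        Finset.sum_add_distrib, Finset.sum_mul, Finset.mul_sum]
      congr 1
      · rw [Finset.sum_comm]
        exact Finset.sum_congr rfl fun _ _ => Finset.sum_congr rfl fun _ _ => by ring
      · rw [Finset.sum_comm]
        exact Finset.sum_congr rfl fun _ _ => Finset.sum_congr rfl fun _ _ => by ring
    rw [h5] at h4
    have h6 : ∑ x, g (Sum.inl x) * ∑ j, w x j * v i j = 0 :=
      Finset.sum_eq_zero fun x _ => by rw [h1, mul_zero]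
    rw [h6, zero_add, Finset.sum_eq_single i (fun x _ hx => by rw [h2 _ _ hx, mul_zero])
      (fun h => absurd (Finset.mem_univ i) h)] at h4
    exact (mul_eq_zero.1 h4).resolve_right (h3 i)
  have h7 : ∑ x, g (Sum.inr x) • v x = 0 :=
    Finset.sum_eq_zero fun x _ => by rw [hv, zero_smul]
  rw [h7, add_zero] at hg
  have h8 := hw _ hg
  rintro (x | x)
  · exact h8 x
  · exact hv x

end

end Q41.LSS
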