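import Pool.Agent.Q41.LSS.Rank

/-!
# Systems of orthogonal vectors: one step
-/

set_option autoImplicit false
set_option linter.unusedSectionVars false

namespace Q41.LSS

open Matrix

section minor

variable {κ : Type} [Field κ] {η ι : Type} [Fintype η] [DecidableEq η] [Fintype ι]

lemma exists_minor (A : η → ι → κ) (h : LinearIndependent κ A) :
    ∃ c : η → ι, (Matrix.of fun i j => A i (c j)).det ≠ 0 := by
  classical
  let M : Matrix η ι κ := Matrix.of A
  have hrow : LinearIndependent κ M.row := h
  have h1 : M.rank = Fintype.card η := hrow.rank_matrix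
  rw [Matrix.rank_eq_finrank_span_cols] at h1
  obtain ⟨f, hf, -, hli⟩ := Submodule.exists_fun_fin_finrank_span_eq κ (Set.range M.col)
  choose J hJ using hf
  let e : η ≃ Fin (Module.finrank κ (Submodule.span κ (Set.range M.col))) :=
    (Fintype.equivFin η).trans (finCongr h1.symm)
  refine ⟨fun j => J (e j), ?_⟩
  have h2 : LinearIndependent κ (Matrix.of fun i j => A i (J (e j))).col := by
    have h3 : (Matrix.of fun i j => A i (J (e j))).col = f ∘ e := by
      funext j i
      exact congrFun (hJ (e j)) i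
    rw [h3]
    exact hli.comp _ e.injective
  rw [Matrix.linearIndependent_cols_iff_isUnit, Matrix.isUnit_iff_isUnit_det] at h2
  exact h2.ne_zero

end minor

section par

variable {κ : Type} [Field κ] {η ι : Type} [Fintype η] [DecidableEq η] [Fintype ι]
  [DecidableEq ι]

lemma sum_split {c : η → ι} (hc : Function.Injective c) (g : ι → κ) :
    ∑ j, g j = ∑ i, g (c i) + ∑ j : {j // j ∉ Set.range c}, g j := by
  classical
  have h1 : ∑ i, g (c i) = ∑ j ∈ Finset.univ.filter (fun j => j ∈ Set.range c), g j := by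
    have h2 : Finset.univ.filter (fun j => j ∈ Set.range c) = Finset.univ.image c := by
      ext j; simp
    rw [h2, Finset.sum_image (fun _ _ _ _ h => hc h)]
  have h2 : ∑ j : {j // j ∉ Set.range c}, g j =
      ∑ j ∈ Finset.univ.filter (fun j => ¬ j ∈ Set.range c), g j :=
    (Finset.sum_subtype _ (fun j => by simp) _).symm
  rw [h1, h2, Finset.sum_filter_add_sum_filter_not]

/-- solution of a system of linear equations over a subfield -/
lemma par (F : Subfield κ) (A : η → ι → κ) (hA : ∀ h j, A h j ∈ F) (c : η → ι)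
    (hc : (Matrix.of fun i j => A i (c j)).det ≠ 0) (y : ι → κ)
    (hy : ∀ h, ∑ j, A h j * y j = 0) :
    ∃ B : ι → {j // j ∉ Set.range c} → κ, (∀ l j, B l j ∈ F) ∧ ∀ l, y l = ∑ j, B l j * y j := by
  classical
  -- lift to `F`
  let C' : Matrix η η F := Matrix.of fun i j => ⟨A i (c j), hA i (c j)⟩
  let D' : Matrix η {j // j ∉ Set.range c} F := Matrix.of fun i j => ⟨A i j, hA i j⟩
  have hC : (C'.map F.subtype) = Matrix.of fun i j => A i (c j) := by
    ext i j; rfl
  have hdet : C'.det ≠ 0 := by
    intro h0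
    apply hc
    rw [← hC]
    have := F.subtype.map_det C'
    rw [h0, map_zero] at this
    exact this.symm
  have hcinj : Function.Injective c := by
    intro i j hij
    by_contra hne
    apply hc
    rw [Matrix.det_zero_of_column_eq hne]
    intro k
    change A k (c i) = A k (c j)
    rw [hij]
  have hsplit := fun g : ι → κ => sum_split hcinj g
  let W : Matrix η {j // j ∉ Set.range c} F := -(C'⁻¹ * D')
  have hW : ∀ i, y (c i) = ∑ j : {j // j ∉ Set.range c}, (W i j : κ) * y j := by
    have h1 : ∀ h, ∑ i, ((C' h i : F) : κ) * y (c i) +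
        ∑ j : {j // j ∉ Set.range c}, ((D' h j : F) : κ) * y j = 0 := by
      intro h
      rw [← hy h, hsplit]
      rfl
    intro i
    have h2 : ∑ h, ((C'⁻¹ i h : F) : κ) * (∑ i', ((C' h i' : F) : κ) * y (c i') +
        ∑ j : {j // j ∉ Set.range c}, ((D' h j : F) : κ) * y j) = 0 := by
      refine Finset.sum_eq_zero fun h _ => ?_
      rw [h1 h, mul_zero]
    simp only [mul_add, Finset.sum_add_distrib, Finset.mul_sum] at h2
    rw [Finset.sum_comm, Finset.sum_comm (t := (Finset.univ : Finset {j // j ∉ Set.range c}))] at h2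
    have h3 : ∀ i', ∑ h, ((C'⁻¹ i h : F) : κ) * (((C' h i' : F) : κ) * y (c i')) =
        if i = i' then y (c i') else 0 := by
      intro i'
      have h4 : ∑ h, C'⁻¹ i h * C' h i' = (1 : Matrix η η F) i i' := by
        rw [← Matrix.nonsing_inv_mul C' (isUnit_iff_ne_zero.2 hdet), Matrix.mul_apply]
      have h5 : ∑ h, ((C'⁻¹ i h : F) : κ) * ((C' h i' : F) : κ) =
          (((1 : Matrix η η F) i i' : F) : κ) := by
        rw [← h4]
        simp
      calc ∑ h, ((C'⁻¹ i h : F) : κ) * (((C' h i' : F) : κ) * y (c i'))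
          = (∑ h, ((C'⁻¹ i h : F) : κ) * ((C' h i' : F) : κ)) * y (c i') := by
            rw [Finset.sum_mul]
            exact Finset.sum_congr rfl fun h _ => by ring
        _ = _ := by
            rw [h5, Matrix.one_apply]
            split_ifs <;> simp
    have h6 : ∀ j : {j // j ∉ Set.range c},
        ∑ h, ((C'⁻¹ i h : F) : κ) * (((D' h j : F) : κ) * y j) = -((W i j : F) : κ) * y j := by
      intro j
      have h7 : ((W i j : F) : κ) = -∑ h, ((C'⁻¹ i h : F) : κ) * ((D' h j : F) : κ) := by
        have : W i j = -∑ h, C'⁻¹ i h * D' h j := by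
          simp only [W, Matrix.neg_apply, Matrix.mul_apply]
        rw [this]
        simp
      rw [h7, neg_neg, Finset.sum_mul]
      exact Finset.sum_congr rfl fun h _ => by ring
    rw [Finset.sum_congr rfl fun i' _ => h3 i', Finset.sum_congr rfl fun j _ => h6 j] at h2
    simp only [Finset.sum_ite_eq, Finset.mem_univ, if_true, neg_mul, Finset.sum_neg_distrib] at h2
    exact add_neg_eq_zero.1 h2
  have hex : ∀ l, ∃ b : {j // j ∉ Set.range c} → κ, (∀ j, b j ∈ F) ∧ y l = ∑ j, b j * y j := by
    intro l
    by_cases hl : l ∈ Set.range c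
    · obtain ⟨i, rfl⟩ := hl
      exact ⟨fun j => W i j, fun j => (W i j).2, hW i⟩
    · refine ⟨fun j => if j = ⟨l, hl⟩ then 1 else 0, fun j => ?_, ?_⟩
      · change (if j = ⟨l, hl⟩ then (1 : κ) else 0) ∈ F
        split_ifs
        · exact one_mem _
        · exact zero_mem _
      · simp
  choose B hB1 hB2 using hex
  exact ⟨B, hB1, hB2⟩

lemma card_compl_range {c : η → ι} (hc : Function.Injective c) :
    Fintype.card {j // j ∉ Set.range c} + Fintype.card η = Fintype.card ι := by
  classical
  have h1 := Fintype.card_subtype_compl (fun j => j ∈ Set.range c)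
  have h2 : Fintype.card {j // j ∈ Set.range c} = Fintype.card η :=
    (Fintype.card_congr (Equiv.ofInjective c hc)).symm
  have h3 : Fintype.card {j // j ∈ Set.range c} ≤ Fintype.card ι := Fintype.card_subtype_le _
  omega

lemma inj_of_det {A : η → ι → κ} {c : η → ι}
    (hc : (Matrix.of fun i j => A i (c j)).det ≠ 0) : Function.Injective c := by
  intro i j hij
  by_contra hne
  apply hc
  rw [Matrix.det_zero_of_column_eq hne]
  intro k
  change A k (c i) = A k (c j)
  rw [hij]

end par

section steps

variable {K κ : Type} [Field K] [Field κ] [Algebra K κ] {η ι : Type} [Fintype η] [Fintype ι]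

/-- one vector satisfying linear equations -/
theorem rk_lin (s : Set κ) (A : η → ι → κ) (hA : ∀ h j, A h j ∈ cl K s)
    (hli : LinearIndependent κ A) (y : ι → κ) (hy : ∀ h, ∑ j, A h j * y j = 0) :
    rk K (s ∪ Set.range y) + Fintype.card η ≤ rk K s + Fintype.card ι := by
  classical
  obtain ⟨c, hc⟩ := exists_minor A hli
  obtain ⟨B, hB1, hB2⟩ := par (Fc K s) A hA c hc y hy
  let z : {j // j ∉ Set.range c} → κ := fun j => y j
  have h1 : rk K (s ∪ Set.range y) ≤ rk K (s ∪ Set.range z) := by
    apply rk_le_of_subset_cl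
    rintro x (hx | ⟨l, rfl⟩)
    · exact subset_cl _ (Or.inl hx)
    · rw [hB2 l]
      change _ ∈ Fc K (s ∪ Set.range z)
      refine sum_mem fun j _ => mul_mem ?_ ?_
      · exact cl_mono Set.subset_union_left (hB1 l j)
      · exact subset_cl _ (Or.inr ⟨j, rfl⟩)
  have h2 := rk_union_range_le (K := K) s z
  have h3 := card_compl_range (inj_of_det hc)
  calc rk K (s ∪ Set.range y) + Fintype.card η
      ≤ rk K s + Fintype.card {j // j ∉ Set.range c} + Fintype.card η :=
        add_le_add (h1.trans h2) le_rfl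
    _ = rk K s + ((Fintype.card {j // j ∉ Set.range c} + Fintype.card η : ℕ) : ℕ∞) := by
        push_cast; ring
    _ = rk K s + Fintype.card ι := by rw [h3]

/-- one vector satisfying linear equations and `y·y = -1` -/
theorem rk_quad (s : Set κ) (A : η → ι → κ) (hA : ∀ h j, A h j ∈ cl K s)
    (hli : LinearIndependent κ A) (y : ι → κ) (hy : ∀ h, ∑ j, A h j * y j = 0)
    (hq : ∑ j, y j * y j = -1) :
    rk K (s ∪ Set.range y) + (Fintype.card η + 1) ≤ rk K s + Fintype.card ι := by
  classical
  obtain ⟨c, hc⟩ := exists_minor A hli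
  obtain ⟨B, hB1, hB2⟩ := par (Fc K s) A hA c hc y hy
  let e := Fintype.equivFin {j // j ∉ Set.range c}
  let z : Fin (Fintype.card {j // j ∉ Set.range c}) → κ := fun j => y (e.symm j)
  have h1 : rk K (s ∪ Set.range y) ≤ rk K (s ∪ Set.range z) := by
    apply rk_le_of_subset_cl
    rintro x (hx | ⟨l, rfl⟩)
    · exact subset_cl _ (Or.inl hx)
    · rw [hB2 l]
      change _ ∈ Fc K (s ∪ Set.range z)
      refine sum_mem fun j _ => mul_mem ?_ ?_
      · exact cl_mono Set.subset_union_left (hB1 l j)
      · exact subset_cl _ (Or.inr ⟨e j, by simp [z]⟩)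
  -- the polynomial relation
  let Q : MvPolynomial (Fin (Fintype.card {j // j ∉ Set.range c})) (Fc K s) :=
    ∑ l, (∑ j, MvPolynomial.C ⟨B l (e.symm j), hB1 l (e.symm j)⟩ * MvPolynomial.X j) ^ 2 + 1
  have hQ0 : Q ≠ 0 := by
    intro h0
    have h4 : MvPolynomial.eval (fun _ => (0 : Fc K s)) Q = 1 := by
      simp [Q]
    rw [h0, map_zero] at h4
    exact zero_ne_one h4
  have hQ : MvPolynomial.aeval z Q = 0 := by
    have h4 : ∀ l, MvPolynomial.aeval z (∑ j, MvPolynomial.C
        (⟨B l (e.symm j), hB1 l (e.symm j)⟩ : Fc K s) * MvPolynomial.X j) = y l := by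
      intro l
      rw [hB2 l, map_sum, ← e.symm.sum_comp]
      refine Finset.sum_congr rfl fun j _ => ?_
      rw [map_mul, MvPolynomial.aeval_C, MvPolynomial.aeval_X]
      rfl
    simp only [Q, map_add, map_sum, map_pow, map_one]
    have h5 : ∀ l, (MvPolynomial.aeval z (∑ j, MvPolynomial.C
        (⟨B l (e.symm j), hB1 l (e.symm j)⟩ : Fc K s) * MvPolynomial.X j)) ^ 2 = y l * y l := by
      intro l
      rw [h4, sq]
    simp only [map_sum] at h5
    rw [Finset.sum_congr rfl fun l _ => h5 l, hq, neg_add_cancel]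
  have h2 := rk_poly _ s z Q hQ0 hQ
  have h3 := card_compl_range (inj_of_det hc)
  calc rk K (s ∪ Set.range y) + (Fintype.card η + 1)
      ≤ rk K (s ∪ Set.range z) + (Fintype.card η + 1) := add_le_add h1 le_rfl
    _ = (rk K (s ∪ Set.range z) + 1) + Fintype.card η := by ring
    _ ≤ (rk K s + Fintype.card {j // j ∉ Set.range c}) + Fintype.card η :=
        add_le_add h2 le_rfl
    _ = rk K s + ((Fintype.card {j // j ∉ Set.range c} + Fintype.card η : ℕ) : ℕ∞) := by
        push_cast; ring
    _ = rk K s + Fintype.card ι := by rw [h3]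

end steps

end Q41.LSS
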