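import Mathlib

/-!
# The algebraic matroid of a field extension: systems of equations
-/

set_option autoImplicit false

namespace Q41.LSS

open AlgebraicIndependent

variable {K κ : Type} [Field K] [Field κ] [Algebra K κ]

variable (K) in
/-- the rank (transcendence degree) of a set -/
noncomputable def rk (s : Set κ) : ℕ∞ := (matroid K κ).eRk s

variable (K) in
/-- the algebraic closure of a set -/
noncomputable def cl (s : Set κ) : Set κ := (matroid K κ).closure s

lemma mem_cl {s : Set κ} {x : κ} : x ∈ cl K s ↔ IsAlgebraic (Algebra.adjoin K s) x := by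
  rw [cl, matroid_closure_eq]
  rfl

lemma subset_cl (s : Set κ) : s ⊆ cl K s := (matroid K κ).subset_closure s (Set.subset_univ _)

lemma cl_mono {s t : Set κ} (h : s ⊆ t) : cl K s ⊆ cl K t := (matroid K κ).closure_mono h

lemma cl_cl (s : Set κ) : cl K (cl K s) = cl K s := (matroid K κ).closure_closure s

lemma cl_subset {s t : Set κ} (h : s ⊆ cl K t) : cl K s ⊆ cl K t := by
  rw [← cl_cl (K := K) t]; exact cl_mono h

lemma rk_mono {s t : Set κ} (h : s ⊆ t) : rk K s ≤ rk K t := (matroid K κ).eRk_mono h

lemma rk_cl (s : Set κ) : rk K (cl K s) = rk K s := (matroid K κ).eRk_closure_eq s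

lemma rk_le_of_subset_cl {s t : Set κ} (h : s ⊆ cl K t) : rk K s ≤ rk K t := by
  rw [← rk_cl t]; exact rk_mono h

lemma rk_union_le (s t : Set κ) : rk K (s ∪ t) ≤ rk K s + t.encard :=
  (matroid K κ).eRk_union_le_eRk_add_encard s t

lemma rk_union_range_le {ι : Type} [Fintype ι] (s : Set κ) (f : ι → κ) :
    rk K (s ∪ Set.range f) ≤ rk K s + Fintype.card ι := by
  refine (rk_union_le _ _).trans (add_le_add le_rfl ?_)
  rw [← Set.image_univ]
  refine (Set.encard_image_le _ _).trans ?_
  simp

lemma rk_range_le {ι : Type} [Fintype ι] (f : ι → κ) :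
    rk K (Set.range f) ≤ Fintype.card ι := by
  have := rk_union_range_le (K := K) ∅ f
  rw [Set.empty_union] at this
  refine this.trans ?_
  rw [rk, Matroid.eRk_empty, zero_add]

variable (K) in
/-- the closure as a subfield -/
noncomputable def Fc (s : Set κ) : Subfield κ where
  carrier := cl K s
  mul_mem' := by
    intro a b ha hb
    rw [mem_cl] at *
    exact ha.mul hb
  one_mem' := by
    rw [mem_cl]; exact isAlgebraic_one
  add_mem' := by
    intro a b ha hb
    rw [mem_cl] at *
    exact ha.add hb
  zero_mem' := by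
    rw [mem_cl]; exact isAlgebraic_zero
  neg_mem' := by
    intro a ha
    rw [mem_cl] at *
    exact ha.neg
  inv_mem' := by
    intro a ha
    rw [mem_cl] at *
    exact ha.inv

lemma mem_Fc {s : Set κ} {x : κ} : x ∈ Fc K s ↔ x ∈ cl K s := Iff.rfl

/-- roots of polynomials over the closure -/
lemma mem_cl_of_root {s : Set κ} {q : Polynomial κ} (hq : q ≠ 0) (hc : ∀ i, q.coeff i ∈ cl K s)
    {x : κ} (hx : q.eval x = 0) : x ∈ cl K s := by
  rw [← cl_cl, mem_cl]
  have h1 : q ∈ Polynomial.lifts (algebraMap (Algebra.adjoin K (cl K s)) κ) := by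
    rw [Polynomial.lifts_iff_coeff_lifts]
    intro i
    exact ⟨⟨q.coeff i, Algebra.subset_adjoin (hc i)⟩, rfl⟩
  obtain ⟨p, hp⟩ := (Polynomial.mem_lifts q).1 h1
  refine ⟨p, ?_, ?_⟩
  · rintro rfl
    rw [Polynomial.map_zero] at hp
    exact hq hp.symm
  · rw [Polynomial.aeval_def, Polynomial.eval₂_eq_eval_map, hp, hx]

/-- a polynomial relation lowers the rank -/
theorem rk_poly (k : ℕ) : ∀ (s : Set κ) (z : Fin k → κ) (Q : MvPolynomial (Fin k) (Fc K s)),
    Q ≠ 0 → MvPolynomial.aeval z Q = 0 → rk K (s ∪ Set.range z) + 1 ≤ rk K s + k := by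
  induction k with
  | zero =>
    intro s z Q hQ h
    exfalso
    obtain ⟨c, rfl⟩ := MvPolynomial.C_surjective (Fin 0) Q
    rw [MvPolynomial.aeval_C] at h
    apply hQ
    have : c = 0 := (algebraMap (Fc K s) κ).injective (by rw [h, map_zero])
    rw [this, map_zero]
  | succ k ih =>
    intro s z Q hQ h
    let q := MvPolynomial.finSuccEquiv (Fc K s) k Q
    have hq : q ≠ 0 := fun h0 => hQ ((MvPolynomial.finSuccEquiv (Fc K s) k).injective (by
      rw [map_zero]; exact h0))
    let z' : Fin k → κ := fun i => z i.succ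
    let φ : MvPolynomial (Fin k) (Fc K s) →+* κ := (MvPolynomial.aeval z').toRingHom
    have hev : (q.map φ).eval (z 0) = 0 := by
      have h1 : (Polynomial.eval₂RingHom φ (z 0)).comp
          (MvPolynomial.finSuccEquiv (Fc K s) k).toRingEquiv.toRingHom =
          (MvPolynomial.aeval z : MvPolynomial (Fin (k + 1)) (Fc K s) →ₐ[Fc K s] κ).toRingHom := by
        apply MvPolynomial.ringHom_ext
        · intro a
          simp [φ, MvPolynomial.finSuccEquiv_apply]
        · intro i
          refine Fin.cases ?_ (fun i => ?_) i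
          · simp [φ, MvPolynomial.finSuccEquiv_X_zero]
          · simp [φ, MvPolynomial.finSuccEquiv_X_succ, z']
      have h2 := congrArg (fun g => g Q) h1
      rw [Polynomial.eval_map]
      refine h2.trans h
    have hrange : s ∪ Set.range z = insert (z 0) (s ∪ Set.range z') := by
      ext x
      simp only [Set.mem_union, Set.mem_range, Set.mem_insert_iff]
      constructor
      · rintro (h | ⟨i, rfl⟩)
        · exact Or.inr (Or.inl h)
        · refine Fin.cases (Or.inl rfl) (fun i => Or.inr (Or.inr ⟨i, rfl⟩)) i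
      · rintro (rfl | h | ⟨i, rfl⟩)
        · exact Or.inr ⟨0, rfl⟩
        · exact Or.inl h
        · exact Or.inr ⟨i.succ, rfl⟩
    by_cases h0 : q.map φ = 0
    · obtain ⟨i, hi⟩ : ∃ i, q.coeff i ≠ 0 := by
        by_contra hcon
        push Not at hcon
        exact hq (Polynomial.ext fun i => by rw [hcon i, Polynomial.coeff_zero])
      have h1 : MvPolynomial.aeval z' (q.coeff i) = 0 := by
        have := congrArg (fun p => p.coeff i) h0
        simpa [φ] using this
      have h2 := ih s z' (q.coeff i) hi h1
      rw [hrange]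
      have h3 : rk K (insert (z 0) (s ∪ Set.range z')) ≤ rk K (s ∪ Set.range z') + 1 :=
        (matroid K κ).eRk_insert_le_add_one _ _
      calc rk K (insert (z 0) (s ∪ Set.range z')) + 1 ≤ rk K (s ∪ Set.range z') + 1 + 1 :=
            add_le_add h3 le_rfl
        _ ≤ rk K s + k + 1 := add_le_add h2 le_rfl
        _ = rk K s + (k + 1 : ℕ) := by push_cast; ring
    · have h1 : z 0 ∈ cl K (s ∪ Set.range z') := by
        refine mem_cl_of_root h0 (fun i => ?_) hev
        rw [Polynomial.coeff_map]
        change MvPolynomial.aeval z' (q.coeff i) ∈ Fc K (s ∪ Set.range z')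
        rw [MvPolynomial.aeval_def, MvPolynomial.eval₂_eq]
        refine sum_mem fun m _ => mul_mem ?_ (prod_mem fun j _ => pow_mem ?_ _)
        · exact cl_mono Set.subset_union_left ((q.coeff i).coeff m).2
        · exact subset_cl _ (Or.inr ⟨j, rfl⟩)
      rw [hrange]
      have h2 : rk K (insert (z 0) (s ∪ Set.range z')) ≤ rk K (s ∪ Set.range z') := by
        apply rk_le_of_subset_cl
        rintro x (rfl | hx)
        · exact h1
        · exact subset_cl _ hx
      have h3 := rk_union_range_le (K := K) s z'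
      rw [Fintype.card_fin] at h3
      calc rk K (insert (z 0) (s ∪ Set.range z')) + 1 ≤ rk K s + k + 1 :=
            add_le_add (h2.trans h3) le_rfl
        _ = rk K s + (k + 1 : ℕ) := by push_cast; ring

end Q41.LSS
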