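import Pool.Agent.Q41.LSS.Iso
import Pool.Agent.Q37.Dim.HyperStep

/-!
# Primality of the ideal of the complete graph
-/

set_option autoImplicit false
set_option linter.unusedSectionVars false

namespace Q41.LSS

open MvPolynomial Q37.Dim Q37.Hyp AlgebraicIndependent

/-- pairs `i < j` -/
abbrev Pn (n : ℕ) : Type := {x : Fin n × Fin n // x.1 < x.2}

/-- the scalar products of the rows -/
noncomputable def fP (K : Type) [Field K] (n d : ℕ) : Pn n → MvPolynomial (Fin n × Fin d) K :=
  fun x => ∑ l, X (x.1.1, l) * X (x.1.2, l)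

/-- the matrix of variables -/
noncomputable def Ym (K : Type) [Field K] (n d : ℕ) :
    Matrix (Fin n) (Fin d) (MvPolynomial (Fin n × Fin d) K) := fun k j => X (k, j)

variable {K : Type} [Field K]

section dim

variable {σ : Type} [Finite σ]

theorem dm_le_rk (p : Ideal (MvPolynomial σ K)) [p.IsPrime] :
    ((dm p : ℕ) : ℕ∞) ≤ rk K (Set.range fun x : σ =>
      algebraMap (MvPolynomial σ K ⧸ p) (FractionRing (MvPolynomial σ K ⧸ p))
        (Ideal.Quotient.mk p (X x))) := by
  set A := MvPolynomial σ K ⧸ p with hA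
  set κ := FractionRing A
  let s : Set A := Set.range fun x : σ => Ideal.Quotient.mk p (X x)
  have hs : Algebra.adjoin K s = ⊤ := by
    rw [eq_top_iff]
    rintro a -
    obtain ⟨f, rfl⟩ := Ideal.Quotient.mk_surjective a
    induction f using MvPolynomial.induction_on with
    | C c => exact (Algebra.adjoin K s).algebraMap_mem c
    | add f g hf hg => rw [map_add]; exact add_mem hf hg
    | mul_X f x hf => rw [map_mul]; exact mul_mem hf (Algebra.subset_adjoin ⟨x, rfl⟩)
  have halg : Algebra.IsAlgebraic (Algebra.adjoin K s) A := ⟨fun a =>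
    isAlgebraic_algebraMap (⟨a, by rw [hs]; exact Algebra.mem_top⟩ : Algebra.adjoin K s)⟩
  obtain ⟨t, hts, ht⟩ := exists_isTranscendenceBasis_subset (R := K) s
  let f : A →ₐ[K] κ := IsScalarTower.toAlgHom K A κ
  have hf : Function.Injective f := IsFractionRing.injective A κ
  let x : t → κ := fun a => f a
  have hx : AlgebraicIndependent K x := ht.1.map' hf
  have hind : (matroid K κ).Indep (Set.range x) := by
    rw [matroid_indep_iff]
    exact hx.coe_range
  have h1 : (Set.range x).encard ≤ rk K (Set.range fun x : σ => algebraMap A κ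
      (Ideal.Quotient.mk p (X x))) := by
    refine hind.encard_le_eRk_of_subset ?_
    rintro _ ⟨⟨a, ha⟩, rfl⟩
    obtain ⟨y, rfl⟩ := hts ha
    exact ⟨y, rfl⟩
  refine le_trans ?_ h1
  rw [← Set.image_univ, (show Function.Injective x from
    fun a b hab => Subtype.ext (hf hab)).encard_image, Set.encard_univ]
  have h2 := ht.lift_cardinalMk_eq_trdeg
  simp only [Cardinal.lift_id] at h2
  have h3 : ((dm p : ℕ) : Cardinal) = Cardinal.mk t := by
    rw [h2, dm, td_cast]
  have h4 : ENat.card t = (dm p : ℕ) := by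
    rw [ENat.card, ← h3]
    simp
  rw [← h4]

end dim

/-- the bound for primes containing the ideal -/
theorem dm_bound {N d : ℕ} (p : Ideal (MvPolynomial (Fin N × Fin d) K)) [p.IsPrime]
    (hf : ∀ x : Pn N, fP K N d x ∈ p) :
    ∃ r s b : ℕ, r + s + b = N ∧ 2 * r ≤ d ∧ Mi (Ym K N d) p (r + b) ∧
      dm p + (tri r + r + b * r + tri b) ≤ r * d + s * r + b * d := by
  classical
  set A := MvPolynomial (Fin N × Fin d) K ⧸ p with hA
  set κ := FractionRing A
  let φ : MvPolynomial (Fin N × Fin d) K →+* κ := (algebraMap A κ).comp (Ideal.Quotient.mk p)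
  have hφ : ∀ f, φ f = 0 ↔ f ∈ p := by
    intro f
    rw [← Ideal.Quotient.eq_zero_iff_mem]
    exact map_eq_zero_iff _ (IsFractionRing.injective A κ)
  let y : Fin N → Fin d → κ := fun i j => φ (X (i, j))
  have hy1 : ∀ i i', i < i' → ∑ j, y i j * y i' j = 0 := by
    intro i i' h
    have h1 := (hφ _).2 (hf ⟨(i, i'), h⟩)
    rw [fP, map_sum] at h1
    rw [← h1]
    exact Finset.sum_congr rfl fun j _ => by rw [map_mul]
  have hy : ∀ i i', i ≠ i' → ∑ j, y i j * y i' j = 0 := by
    intro i i' h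
    rcases lt_or_gt_of_ne h with h | h
    · exact hy1 _ _ h
    · rw [← hy1 _ _ h]
      exact Finset.sum_congr rfl fun j _ => mul_comm _ _
  obtain ⟨r, s, b, h1, h2, ⟨R, c, hRc⟩, h3⟩ := key_bound (K := K) y hy
  rw [Fintype.card_fin] at h2 h3
  refine ⟨r, s, b, h1, h2, ⟨R, c, ?_⟩, ?_⟩
  · intro hmem
    apply hRc
    rw [← hφ, RingHom.map_det] at hmem
    exact hmem
  · have h4 := dm_le_rk p
    have h5 : ent y = Set.range fun x : Fin N × Fin d => algebraMap A κ
        (Ideal.Quotient.mk p (X x)) := by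
      ext z
      constructor
      · rintro ⟨i, j, rfl⟩; exact ⟨(i, j), rfl⟩
      · rintro ⟨⟨i, j⟩, rfl⟩; exact ⟨i, j, rfl⟩
    rw [← h5] at h4
    have h6 : (((dm p + (tri r + r + b * r + tri b)) : ℕ) : ℕ∞) ≤
        ((r * d + s * r + b * d : ℕ) : ℕ∞) := by
      rw [Nat.cast_add]
      exact (add_le_add h4 le_rfl).trans h3
    exact_mod_cast h6

/-- pairs in `n + 1` -/
noncomputable def Fp (n : ℕ) : Pn n ⊕ Fin n ≃ Pn (n + 1) :=
  Equiv.ofBijective (Sum.elim
    (fun x => ⟨(x.1.1.succ, x.1.2.succ), Fin.succ_lt_succ_iff.2 x.2⟩)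
    (fun k => ⟨(0, k.succ), Fin.succ_pos k⟩)) (by
    constructor
    · rintro (⟨⟨a, b⟩, h⟩ | k) (⟨⟨a', b'⟩, h'⟩ | k') heq
      · simp only [Sum.elim_inl, Subtype.mk.injEq, Prod.mk.injEq, Fin.succ_inj] at heq
        obtain ⟨rfl, rfl⟩ := heq
        rfl
      · simp only [Sum.elim_inl, Sum.elim_inr, Subtype.mk.injEq, Prod.mk.injEq] at heq
        exact absurd heq.1 (Fin.succ_ne_zero _)
      · simp only [Sum.elim_inl, Sum.elim_inr, Subtype.mk.injEq, Prod.mk.injEq] at heq
        exact absurd heq.1.symm (Fin.succ_ne_zero _)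
      · simp only [Sum.elim_inr, Subtype.mk.injEq, Prod.mk.injEq, Fin.succ_inj, true_and] at heq
        rw [heq]
    · rintro ⟨⟨a, b⟩, h⟩
      obtain ⟨b, rfl⟩ := Fin.exists_succ_eq.2 (show b ≠ 0 from fun h0 => by
        subst h0; exact absurd h (Fin.not_lt_zero a))
      by_cases ha : a = 0
      · subst ha
        exact ⟨Sum.inr b, rfl⟩
      · obtain ⟨a, rfl⟩ := Fin.exists_succ_eq.2 ha
        exact ⟨Sum.inl ⟨(a, b), Fin.succ_lt_succ_iff.1 h⟩, rfl⟩)

lemma card_Pn (n : ℕ) : Fintype.card (Pn n) = tri n := by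
  induction n with
  | zero =>
    rw [Fintype.card_eq_zero_iff.2 ⟨fun x => x.1.1.elim0⟩]
    rfl
  | succ n ih =>
    rw [← Fintype.card_congr (Fp n), Fintype.card_sum, ih, Fintype.card_fin, tri_succ]

lemma jn_fP (n d : ℕ) (x : Pn n ⊕ Fin n) :
    rename (Ev n d) (jn (fP K n d) (Ym K n d) x) = fP K (n + 1) d (Fp n x) := by
  rcases x with x | k
  · change rename (Ev n d) (incl K (Fin d) _ (fP K n d x)) = _
    rw [fP, map_sum, map_sum, fP]
    refine Finset.sum_congr rfl fun l _ => ?_
    rw [map_mul, map_mul, incl_X, incl_X, rename_X, rename_X]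
    rfl
  · change rename (Ev n d) (lf (Ym K n d) k) = _
    rw [lf, map_sum, fP]
    refine Finset.sum_congr rfl fun l _ => ?_
    rw [map_mul, Ym, incl_X, rename_X, rename_X, mul_comm]
    rfl

lemma fP_hom (n d : ℕ) (x : Pn n) : (fP K n d x).IsHomogeneous 2 := by
  refine IsHomogeneous.sum _ _ _ fun l _ => ?_
  exact (isHomogeneous_X K _).mul (isHomogeneous_X K _)

/-- the generic rank -/
lemma rank_Ym {n d : ℕ} (h : n ≤ d) : Mi (Ym K n d) (Ideal.span (Set.range (fP K n d))) n := by
  classical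
  let v : Fin n × Fin d → K := fun x => if Fin.castLE h x.1 = x.2 then 1 else 0
  refine ⟨id, Fin.castLE h, fun hmem => ?_⟩
  have h1 : Ideal.span (Set.range (fP K n d)) ≤ RingHom.ker (eval v) := by
    rw [Ideal.span_le]
    rintro _ ⟨x, rfl⟩
    change eval v (fP K n d x) = 0
    rw [fP, map_sum]
    refine Finset.sum_eq_zero fun l _ => ?_
    rw [map_mul, eval_X, eval_X]
    by_cases hl : Fin.castLE h x.1.1 = l
    · have : ¬ Fin.castLE h x.1.2 = l := by
        intro h2
        rw [← hl] at h2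
        exact x.2.ne (Fin.castLE_injective h h2).symm
      rw [show v (x.1.2, l) = 0 from if_neg this, mul_zero]
    · rw [show v (x.1.1, l) = 0 from if_neg hl, zero_mul]
  have h2 : eval v ((Ym K n d).submatrix id (Fin.castLE h)).det = 0 := h1 hmem
  rw [RingHom.map_det] at h2
  have h3 : (eval v).mapMatrix ((Ym K n d).submatrix id (Fin.castLE h)) = 1 := by
    ext k l
    change eval v (X (k, Fin.castLE h l)) = _
    rw [eval_X, Matrix.one_apply]
    by_cases hkl : k = l
    · rw [if_pos hkl, hkl]; exact if_pos rfl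
    · rw [if_neg hkl]
      exact if_neg fun h' => hkl (Fin.castLE_injective h h')
  rw [h3, Matrix.det_one] at h2
  exact one_ne_zero h2

/-- all strata are small -/
def Crit (n d : ℕ) : Prop := ∀ r s b : ℕ, r + s + b < n → 2 * r ≤ d →
  (1 ≤ s → s * r + s + tri (r + s + b) + 1 ≤ s * d + tri r + r + b * r + tri b) ∧
  s * r + tri (r + s + b) ≤ s * d + tri r + r + b * r + tri b

theorem prime_of_crit (d : ℕ) : ∀ n : ℕ, n ≤ d → Crit n d →
    (Ideal.span (Set.range (fP K n d))).IsPrime := by
  intro n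
  induction n with
  | zero =>
    intro _ _
    have : IsEmpty (Pn 0) := ⟨fun x => x.1.1.elim0⟩
    rw [Set.range_eq_empty, Ideal.span_empty]
    exact Ideal.isPrime_bot
  | succ n ih =>
    intro hnd hc
    have h0 := ih (by omega) (fun r s b h => hc r s b (by omega))
    refine prime_transport (Fp n) (Ev n d) (jn_fP n d) ?_
    refine prime_of_linear (fP K n d) (Ym K n d) (fun x => ⟨2, by norm_num, fP_hom n d x⟩)
      (fun _ => 1) (fun k j => isHomogeneous_X K _) h0 ?_ ?_ ?_
    · intro P hP hf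
      obtain ⟨r, s, b, h1, h2, -, h3⟩ := dm_bound P hf
      have h4 := (hc r s b (by omega) h2).2
      rw [card_Pn, Fintype.card_prod, Fintype.card_fin, Fintype.card_fin]
      subst h1
      have h5 : (r + s + b) * d = r * d + s * d + b * d := by ring
      omega
    · have := rank_Ym (K := K) (show n ≤ d by omega)
      rwa [Fintype.card_fin]
    · intro p hp hf ρ hρ hmi
      obtain ⟨r, s, b, h1, h2, h6, h3⟩ := dm_bound p hf
      rw [Fintype.card_fin] at hρ
      have hrb : r + b ≤ ρ := by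
        by_contra hcon
        exact hmi (h6.of_le (by omega))
      have h4 := (hc r s b (by omega) h2).1 (by omega)
      rw [card_Pn, Fintype.card_prod, Fintype.card_fin, Fintype.card_fin]
      subst h1
      have h5 : (r + s + b) * d = r * d + s * d + b * d := by ring
      omega

end Q41.LSS
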